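import Pool.Agent.Q100.PosOps

/-!
# MP_cf3d36: positive isomorphisms of `C(K)` for uncountable compact metric `K`
-/

set_option autoImplicit false

namespace Pool.Agent.Results.MP_cf3d36_an.PositiveIsomorphism

universe u v

/-- For all uncountable compact metrizable `K`, `L` there is a positive isomorphism of `C(K)` onto
`C(L)`; in particular there are isomorphisms `T, S : C(K) → C([0,1])` with `T ≥ 0` and
`S⁻¹ ≥ 0`. -/
theorem result :
    (∀ (K : Type u) [MetricSpace K] [CompactSpace K] [Uncountable K],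
      (∃ T : C(K, ℝ) ≃L[ℝ] C(Set.Icc (0 : ℝ) 1, ℝ), ∀ f : C(K, ℝ), 0 ≤ f → 0 ≤ T f) ∧
      ∃ S : C(K, ℝ) ≃L[ℝ] C(Set.Icc (0 : ℝ) 1, ℝ),
        ∀ g : C(Set.Icc (0 : ℝ) 1, ℝ), 0 ≤ g → 0 ≤ S.symm g) ∧
    ∀ (K : Type u) [MetricSpace K] [CompactSpace K] [Uncountable K]
      (L : Type v) [MetricSpace L] [CompactSpace L] [Uncountable L],
      ∃ T : C(K, ℝ) ≃L[ℝ] C(L, ℝ), ∀ f : C(K, ℝ), 0 ≤ f → 0 ≤ T f := by
  haveI hI : Uncountable (Set.Icc (0 : ℝ) 1) := by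
    rw [← Cardinal.aleph0_lt_mk_iff, Cardinal.mk_Icc_real zero_lt_one]
    exact Cardinal.aleph0_lt_continuum
  refine ⟨fun K _ _ _ => ⟨?_, ?_⟩, ?_⟩
  · obtain ⟨T, hT⟩ := Q100.Pos.main K (Set.Icc (0 : ℝ) 1)
    exact ⟨T, fun f hf y => hT f (fun x => hf x) y⟩
  · obtain ⟨T, hT⟩ := Q100.Pos.main (Set.Icc (0 : ℝ) 1) K
    exact ⟨T.symm, fun f hf y => by
      rw [ContinuousLinearEquiv.symm_symm]
      exact hT f (fun x => hf x) y⟩
  · intro K _ _ _ L _ _ _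
    obtain ⟨T, hT⟩ := Q100.Pos.main K L
    exact ⟨T, fun f hf y => hT f (fun x => hf x) y⟩

end Pool.Agent.Results.MP_cf3d36_an.PositiveIsomorphism
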